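import Pool.Agent.Q166.RichC

/-!
# MP_0bf243_co: every `7 × 7` square extends to a rich plane

The filling is `w'(i₀ + i, j₀ + j) = w(i₀ + ρ(i), j₀ + ρ(j))` with the index map
`ρ = ⋯ 01234 01234 0123456 23456 23456 ⋯`: every row and every column of it is a word
`(x₀⋯x₄)^ω x₀⋯x₆ (x₂⋯x₆)^ω`, and all these `128` words are rich.
-/

namespace Pool.Agent.Results.MP_0bf243_co.Extends

/-- A finite binary word is rich if it has exactly `|w| + 1` palindromic factors, the empty word
included. -/
def IsRich (w : List Bool) : Prop :=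
  {u : List Bool | u <:+: w ∧ u.reverse = u}.ncard = w.length + 1

/-- the horizontal word `w(i,j) w(i,j+1) ⋯ w(i,j+n)` -/
def hword (w : ℤ → ℤ → Bool) (i j : ℤ) (n : ℕ) : List Bool :=
  (List.range (n + 1)).map fun k : ℕ => w i (j + (k : ℤ))

/-- the vertical word `w(i,j) w(i+1,j) ⋯ w(i+n,j)` -/
def vword (w : ℤ → ℤ → Bool) (i j : ℤ) (n : ℕ) : List Bool :=
  (List.range (n + 1)).map fun k : ℕ => w (i + (k : ℤ)) j

/-- a rich plane -/
def RichPlane (w : ℤ → ℤ → Bool) : Prop :=
  ∀ (i j : ℤ) (n : ℕ), IsRich (hword w i j n) ∧ IsRich (vword w i j n)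

/-- Every two-dimensional binary word (`none` = empty cell) whose non-empty cells all lie in a
`7 × 7` block extends to a rich plane. -/
theorem result (w : ℤ → ℤ → Option Bool) (i₀ j₀ : ℤ)
    (hw : ∀ i j, w i j ≠ none → (i₀ ≤ i ∧ i ≤ i₀ + 6) ∧ (j₀ ≤ j ∧ j ≤ j₀ + 6)) :
    ∃ w' : ℤ → ℤ → Bool, (∀ i j b, w i j = some b → w' i j = b) ∧ RichPlane w' := by
  refine ⟨fun i j => (w (i₀ + Q166.Rich.rho (i - i₀)) (j₀ + Q166.Rich.rho (j - j₀))).getD false,
    ?_, ?_⟩
  · intro i j b hb
    obtain ⟨h1, h2⟩ := hw i j (by rw [hb]; simp)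
    show (w (i₀ + Q166.Rich.rho (i - i₀)) (j₀ + Q166.Rich.rho (j - j₀))).getD false = b
    rw [Q166.Rich.rho_id (by omega) (by omega), Q166.Rich.rho_id (by omega) (by omega),
      show i₀ + (i - i₀) = i by ring, show j₀ + (j - j₀) = j by ring, hb]
    rfl
  · intro i j n
    constructor
    · have h := Q166.Rich.rich_word
        (fun k => (w (i₀ + Q166.Rich.rho (i - i₀)) (j₀ + k)).getD false) (j - j₀) (n + 1)
      have e : hword (fun i j =>
          (w (i₀ + Q166.Rich.rho (i - i₀)) (j₀ + Q166.Rich.rho (j - j₀))).getD false) i j n =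
          Q166.Rich.win (fun t => (fun k : ℕ =>
            (w (i₀ + Q166.Rich.rho (i - i₀)) (j₀ + k)).getD false) (Q166.Rich.rho t))
            (j - j₀) (n + 1) := by
        unfold hword Q166.Rich.win
        apply List.map_congr_left
        intro k _
        simp only
        rw [show j + (k : ℤ) - j₀ = j - j₀ + k by ring]
      rw [e]
      exact h
    · have h := Q166.Rich.rich_word
        (fun k => (w (i₀ + k) (j₀ + Q166.Rich.rho (j - j₀))).getD false) (i - i₀) (n + 1)
      have e : vword (fun i j =>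
          (w (i₀ + Q166.Rich.rho (i - i₀)) (j₀ + Q166.Rich.rho (j - j₀))).getD false) i j n =
          Q166.Rich.win (fun t => (fun k : ℕ =>
            (w (i₀ + k) (j₀ + Q166.Rich.rho (j - j₀))).getD false) (Q166.Rich.rho t))
            (i - i₀) (n + 1) := by
        unfold vword Q166.Rich.win
        apply List.map_congr_left
        intro k _
        simp only
        rw [show i + (k : ℤ) - i₀ = i - i₀ + k by ring]
      rw [e]
      exact h

end Pool.Agent.Results.MP_0bf243_co.Extends
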